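import Pool.Agent.H13.TR.Final

/-! All five congruences of the problem, for every prime `p > 3`. -/

namespace Pool.Agent.Results.MP_20e244_nt.AllFive

open Finset Polynomial

/-- `T_n(b,c)`: the coefficient of `x^n` in `(x^2 + b x + c)^n`. -/
noncomputable def T (n : ℕ) (b c : ℤ) : ℤ := ((X ^ 2 + C b * X + C c : ℤ[X]) ^ n).coeff n

/-- `x` lies in `Z_(p)`: its reduced denominator is not divisible by `p`. -/
def PInt (p : ℕ) (x : ℚ) : Prop := ¬ p ∣ x.den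

/-- `a ≡ b` modulo `p ^ m` in `Z_(p)`: both sides are in `Z_(p)` and so is `(a - b) / p ^ m`. -/
def CongMod (p m : ℕ) (a b : ℚ) : Prop := PInt p a ∧ PInt p b ∧ PInt p ((a - b) / (p : ℚ) ^ m)

/-- the symbol `(p/3)`: `1` if `p ≡ 1 mod 3` and `-1` if `p ≡ 2 mod 3` (and `0` if `3 ∣ p`). -/
def chi3 (p : ℕ) : ℤ := if p % 3 = 1 then 1 else if p % 3 = 2 then -1 else 0

/-- the Catalan number `binom(2j,j)/(j+1)` -/
def Cat (j : ℕ) : ℚ := ((2 * j).choose j : ℚ) / (j + 1)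

lemma PInt_of_eq {p : ℕ} {x : ℚ} (n d : ℤ) (hx : x = n / d) (hd : ¬ (p : ℤ) ∣ d) : PInt p x := by
  intro h
  apply hd
  have h1 : (x.den : ℤ) ∣ d := by
    rw [hx, ← Rat.divInt_eq_div]
    exact Rat.den_dvd n d
  exact (Int.natCast_dvd_natCast.mpr h).trans h1

lemma cong_sum {p : ℕ} (hp : p.Prime) (f : ℕ → ℤ) (q N : ℕ) (g : ZMod (p ^ 2))
    (hg : (q : ZMod (p ^ 2)) * g = 1) (hq : ¬ p ∣ q) (E Y : ℤ) (hE : ¬ (p : ℤ) ∣ E)
    (h : (E : ZMod (p ^ 2)) * ∑ j ∈ range N, (f j : ZMod (p ^ 2)) * g ^ j = Y) :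
    CongMod p 2 (∑ j ∈ range N, (f j : ℚ) / (q : ℚ) ^ j) ((Y : ℚ) / E) := by
  have hpz : Prime (p : ℤ) := Nat.prime_iff_prime_int.mp hp
  have hq0 : (q : ℚ) ≠ 0 := by
    intro h0
    have : q = 0 := by exact_mod_cast h0
    exact hq (this ▸ dvd_zero p)
  have hE0 : (E : ℚ) ≠ 0 := by
    intro h0
    have : E = 0 := by exact_mod_cast h0
    exact hE (this ▸ dvd_zero _)
  set S : ℤ := ∑ j ∈ range N, f j * (q : ℤ) ^ (N - 1 - j) with hS
  have hD : ¬ (p : ℤ) ∣ (q : ℤ) ^ (N - 1) := by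
    intro h1
    exact hq (Int.natCast_dvd_natCast.mp (hpz.dvd_of_dvd_pow h1))
  have h1 : (∑ j ∈ range N, (f j : ℚ) / (q : ℚ) ^ j) = (S : ℚ) / ((q : ℤ) ^ (N - 1) : ℤ) := by
    rw [hS]
    push_cast
    rw [sum_div]
    refine sum_congr rfl ?_
    intro j hj
    rw [mem_range] at hj
    have : (q : ℚ) ^ (N - 1) = (q : ℚ) ^ (N - 1 - j) * (q : ℚ) ^ j := by rw [← pow_add]; congr 1; omega
    rw [this]
    field_simp
  have h2 := Pool.Agent.H13.TR.sum_clear f q N g hg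
  have h3 : ((S * E - Y * (q : ℤ) ^ (N - 1) : ℤ) : ZMod (p ^ 2)) = 0 := by
    rw [Int.cast_sub, Int.cast_mul, Int.cast_mul, ← h, hS, h2]
    push_cast
    ring
  rw [ZMod.intCast_zmod_eq_zero_iff_dvd] at h3
  obtain ⟨W, hW⟩ := h3
  have hp0 : (p : ℚ) ≠ 0 := by exact_mod_cast hp.ne_zero
  refine ⟨PInt_of_eq S ((q : ℤ) ^ (N - 1)) h1 hD, PInt_of_eq Y E rfl hE,
    PInt_of_eq W ((q : ℤ) ^ (N - 1) * E) ?_ ?_⟩
  · rw [h1]
    have hW' := congrArg (fun x : ℤ => (x : ℚ)) hW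
    push_cast at hW' ⊢
    field_simp
    linear_combination hW'
  · intro h4
    rcases hpz.dvd_or_dvd h4 with h5 | h5
    · exact hD h5
    · exact hE h5

lemma cong_congr {p : ℕ} {a a' b b' : ℚ} (ha : a = a') (hb : b = b') (h : CongMod p 2 a' b') :
    CongMod p 2 a b := by
  rw [ha, hb]; exact h

lemma ndvd {p : ℕ} (hp : p.Prime) (h3 : 3 < p) (a b : ℕ) : ¬ p ∣ 2 ^ a * 3 ^ b := by
  intro h
  rcases (Nat.Prime.dvd_mul hp).mp h with h1 | h1
  · have := (Nat.prime_dvd_prime_iff_eq hp Nat.prime_two).mp (hp.dvd_of_dvd_pow h1)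
    omega
  · have := (Nat.prime_dvd_prime_iff_eq hp Nat.prime_three).mp (hp.dvd_of_dvd_pow h1)
    omega

lemma ndvd' {p : ℕ} (hp : p.Prime) (h3 : 3 < p) {m : ℕ} (a b : ℕ) (hm : m = 2 ^ a * 3 ^ b) :
    ¬ (p : ℤ) ∣ (m : ℤ) := by
  intro h
  exact ndvd hp h3 a b (hm ▸ Int.natCast_dvd_natCast.mp h)

/-- Q1 of the problem: all five congruences hold modulo `p ^ 2`, for every prime `p > 3`. -/
theorem result (p : ℕ) [Fact p.Prime] (h3 : 3 < p) :
    CongMod p 2 (∑ j ∈ range p, (T j 1 1 : ℚ) * ((2 * j).choose j : ℚ) / 12 ^ j)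
      ((3 + 3 ^ (p - 1)) / 4 * chi3 p) ∧
    CongMod p 2 (∑ j ∈ range ((p - 1) / 2 + 1), (T (2 * j) 4 1 : ℚ) * ((2 * j).choose j : ℚ) / 16 ^ j)
      1 ∧
    CongMod p 2 (∑ j ∈ range ((p - 1) / 2 + 1), (T (2 * j) 4 1 : ℚ) * Cat j / 16 ^ j)
      (4 / 3 * (legendreSym p 3 - p * legendreSym p (-1))) ∧
    CongMod p 2 (∑ j ∈ range ((p - 1) / 2 + 1), (T (2 * j) 3 4 : ℚ) * ((2 * j).choose j : ℚ) / 4 ^ j)
      ((7 - 3 ^ p) / 4 * legendreSym p (-1)) ∧
    CongMod p 2 (∑ j ∈ range ((p - 1) / 2 + 1), (T (2 * j) 8 9 : ℚ) * ((2 * j).choose j : ℚ) / 16 ^ j)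
      (legendreSym p 3) := by
  have hp : p.Prime := Fact.out
  have H := Pool.Agent.H13.TR.good_zmod hp h3
  have t2 := H.two
  have t3 := H.three
  set g2 : ZMod (p ^ 2) := (((2 : ℕ) : ZMod (p ^ 2)))⁻¹ with hg2
  set g3 : ZMod (p ^ 2) := (((3 : ℕ) : ZMod (p ^ 2)))⁻¹ with hg3
  refine ⟨?_, ?_, ?_, ?_, ?_⟩
  · have h := cong_sum hp (fun j => T j 1 1 * ((2 * j).choose j : ℤ)) 12 p (g2 ^ 2 * g3)
      (by push_cast; linear_combination (3 * g3 * (2 * g2 + 1)) * t2 + t3)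
      (ndvd hp h3 2 1) 4 (chi3 p * (3 + 3 ^ (p - 1))) (by exact_mod_cast ndvd' hp h3 (m := 4) 2 0 (by norm_num))
      (by exact_mod_cast Pool.Agent.H13.TR.val1 H)
    refine cong_congr (sum_congr rfl fun j _ => ?_) ?_ h
    · show _ = _
      push_cast
      ring
    · push_cast
      ring
  · have h := cong_sum hp (fun j => T (2 * j) 4 1 * ((2 * j).choose j : ℤ)) 16 ((p - 1) / 2 + 1) (g2 ^ 4)
      (by push_cast; linear_combination ((2 * g2 + 1) * (4 * g2 ^ 2 + 1)) * t2)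
      (ndvd hp h3 4 0) 1 1 (by exact_mod_cast ndvd' hp h3 (m := 1) 0 0 (by norm_num))
      (by have := Pool.Agent.H13.TR.val2 H
          rw [Int.cast_one, one_mul]
          exact this)
    refine cong_congr (sum_congr rfl fun j _ => ?_) ?_ h
    · show _ = _
      push_cast
      ring
    · norm_num
  · have h := cong_sum hp (fun j => T (2 * j) 4 1 * (catalan j : ℤ)) 16 ((p - 1) / 2 + 1) (g2 ^ 4)
      (by push_cast; linear_combination ((2 * g2 + 1) * (4 * g2 ^ 2 + 1)) * t2)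
      (ndvd hp h3 4 0) 3 (4 * ((-1) ^ ((p - 1) / 2) * Pool.Agent.H13.TR.chi3 p - (-1) ^ ((p - 1) / 2) * p))
      (by exact_mod_cast ndvd' hp h3 (m := 3) 0 1 (by norm_num))
      (by have := Pool.Agent.H13.TR.val3 H
          rw [Int.cast_mul, Int.cast_ofNat, Int.cast_ofNat]
          exact this)
    rw [Pool.Agent.H13.TR.leg_three H, Pool.Agent.H13.TR.leg_neg_one H]
    refine cong_congr (sum_congr rfl fun j _ => ?_) ?_ h
    · show _ = _
      have h4 : ((j + 1) * catalan j : ℕ) = j.centralBinom := succ_mul_catalan_eq_centralBinom j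
      have h5 : ((j : ℚ) + 1) * (catalan j : ℚ) = ((2 * j).choose j : ℚ) := by
        rw [← Nat.centralBinom, ← h4]; push_cast; ring
      have h6 : Cat j = (catalan j : ℚ) := by
        have : (j : ℚ) + 1 ≠ 0 := by positivity
        rw [Cat, ← h5]
        field_simp
      rw [h6]
      push_cast
      ring
    · push_cast
      ring
  · have h := cong_sum hp (fun j => T (2 * j) 3 4 * ((2 * j).choose j : ℤ)) 4 ((p - 1) / 2 + 1) (g2 ^ 2)
      (by push_cast; linear_combination (2 * g2 + 1) * t2)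
      (ndvd hp h3 2 0) 4 ((-1) ^ ((p - 1) / 2) * (7 - 3 ^ p)) (by exact_mod_cast ndvd' hp h3 (m := 4) 2 0 (by norm_num))
      (by exact_mod_cast Pool.Agent.H13.TR.val4 H)
    rw [Pool.Agent.H13.TR.leg_neg_one H]
    refine cong_congr (sum_congr rfl fun j _ => ?_) ?_ h
    · show _ = _
      push_cast
      ring
    · push_cast
      ring
  · have h := cong_sum hp (fun j => T (2 * j) 8 9 * ((2 * j).choose j : ℤ)) 16 ((p - 1) / 2 + 1) (g2 ^ 4)
      (by push_cast; linear_combination ((2 * g2 + 1) * (4 * g2 ^ 2 + 1)) * t2)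
      (ndvd hp h3 4 0) 1 ((-1) ^ ((p - 1) / 2) * Pool.Agent.H13.TR.chi3 p)
      (by exact_mod_cast ndvd' hp h3 (m := 1) 0 0 (by norm_num))
      (by have := Pool.Agent.H13.TR.val5 H
          rw [Int.cast_one, one_mul]
          exact this)
    rw [Pool.Agent.H13.TR.leg_three H]
    refine cong_congr (sum_congr rfl fun j _ => ?_) ?_ h
    · show _ = _
      push_cast
      ring
    · push_cast
      ring

end Pool.Agent.Results.MP_20e244_nt.AllFive
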